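import Mathlib

set_option autoImplicit false

/-!
# Cones, lattices and groups (MP_e49dc9_ag, the Kawamata-Morrison cone conjecture): definitions

`V` is a finite dimensional real vector space (the space `N^1`), `L` a lattice in it (it gives the rational
structure), `N` a convex cone (the effective nef cone) and `Γ` a group of linear automorphisms of `V`
(the image of the automorphism group).
-/

namespace Pool.Agent.H39.Cone

variable {V : Type*} [NormedAddCommGroup V] [NormedSpace ℝ V]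

/-- The nonnegative combinations of the elements of a finite set. It is a rational polyhedral cone when all
elements of `S` are in the lattice. -/
def coneOf (S : Finset V) : Set V :=
  {v | ∃ c : V → ℝ, (∀ s ∈ S, 0 ≤ c s) ∧ ∑ s ∈ S, c s • s = v}

/-- A convex cone with nonempty interior whose closure contains no line. -/
structure IsNef (N : Set V) : Prop where
  add : ∀ x ∈ N, ∀ y ∈ N, x + y ∈ N
  smul : ∀ c : ℝ, 0 < c → ∀ x ∈ N, c • x ∈ N
  int : (interior N).Nonempty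
  salient : ∀ v, v ∈ closure N → -v ∈ closure N → v = 0

/-- The elements of `Γ` map `L` into `L` and `N` into `N`. -/
def Pres (Γ : Subgroup (V ≃ₗ[ℝ] V)) (L : Submodule ℤ V) (N : Set V) : Prop :=
  ∀ γ ∈ Γ, (∀ v ∈ L, γ v ∈ L) ∧ ∀ v ∈ N, γ v ∈ N

/-- `N` is the union of the `Γ`-translates of finitely many rational polyhedral cones. -/
def Cov (Γ : Subgroup (V ≃ₗ[ℝ] V)) (L : Submodule ℤ V) (N : Set V) : Prop :=
  ∃ F : Finset (Finset V), (∀ S ∈ F, ∀ s ∈ S, s ∈ L) ∧
    ∀ v, v ∈ N ↔ ∃ γ ∈ Γ, ∃ S ∈ F, ∃ p ∈ coneOf S, γ p = v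

/-- There is a rational polyhedral cone `Π` with
(a) `N` is the union of the translates of `Π`,
(b) the interiors of `Π` and of a translate `γ Π` are disjoint unless `γ = 1`. -/
def FundDom (Γ : Subgroup (V ≃ₗ[ℝ] V)) (L : Submodule ℤ V) (N : Set V) : Prop :=
  ∃ S : Finset V, (∀ s ∈ S, s ∈ L) ∧
    (∀ v, v ∈ N ↔ ∃ γ ∈ Γ, ∃ p ∈ coneOf S, γ p = v) ∧
    ∀ γ ∈ Γ, (interior (coneOf S) ∩ (γ : V → V) '' interior (coneOf S)).Nonempty → γ = 1

/-- The subspace of vectors fixed by `G`. -/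
def fixedSub (G : Subgroup (V ≃ₗ[ℝ] V)) : Submodule ℝ V where
  carrier := {v | ∀ g ∈ G, g v = v}
  add_mem' := fun {a b} ha hb g hg => by rw [map_add, ha g hg, hb g hg]
  zero_mem' := fun g _ => map_zero g
  smul_mem' := fun c v hv g hg => by rw [map_smul, hv g hg]

/-- The lattice vectors in the fixed subspace. -/
def fixedLat (G : Subgroup (V ≃ₗ[ℝ] V)) (L : Submodule ℤ V) : Submodule ℤ (fixedSub G) where
  carrier := {w | (w : V) ∈ L}
  add_mem' := fun {a b} ha hb => by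
    have := L.add_mem ha hb
    simpa using this
  zero_mem' := by simp
  smul_mem' := fun c w hw => by
    have := L.smul_mem c hw
    simpa using this

/-- The part of the cone in the fixed subspace. -/
def fixedCone (G : Subgroup (V ≃ₗ[ℝ] V)) (N : Set V) : Set (fixedSub G) := {w | (w : V) ∈ N}

/-- The image in `GL(V^G)` of the normaliser of `G` in `Γ`. -/
def normImage (Γ G : Subgroup (V ≃ₗ[ℝ] V)) : Subgroup (fixedSub G ≃ₗ[ℝ] fixedSub G) where
  carrier := {h | ∃ n ∈ Γ, (∀ g, g ∈ G ↔ n * g * n⁻¹ ∈ G) ∧ ∀ w : fixedSub G, ((h w : fixedSub G) : V) = n w}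
  mul_mem' := by
    rintro a b ⟨m, hm, hmG, hma⟩ ⟨n, hn, hnG, hnb⟩
    refine ⟨m * n, Γ.mul_mem hm hn, fun g => ?_, fun w => ?_⟩
    · rw [hnG g, hmG (n * g * n⁻¹)]
      have : m * (n * g * n⁻¹) * m⁻¹ = m * n * g * (m * n)⁻¹ := by group
      rw [this]
    · show ((a (b w) : fixedSub G) : V) = m (n w)
      rw [hma, hnb]
  one_mem' := ⟨1, Γ.one_mem, fun g => by simp, fun w => rfl⟩
  inv_mem' := by
    rintro a ⟨m, hm, hmG, hma⟩
    refine ⟨m⁻¹, Γ.inv_mem hm, fun g => ?_, fun w => ?_⟩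
    · rw [hmG (m⁻¹ * g * m⁻¹⁻¹)]
      have : m * (m⁻¹ * g * m⁻¹⁻¹) * m⁻¹ = g := by group
      rw [this]
    · have h1 : m ((a⁻¹ w : fixedSub G) : V) = (w : V) := by
        rw [← hma]
        have h2 : a (a⁻¹ w) = w := a.apply_symm_apply w
        rw [h2]
      calc ((a⁻¹ w : fixedSub G) : V) = m⁻¹ (m ((a⁻¹ w : fixedSub G) : V)) := (m.symm_apply_apply _).symm
        _ = m⁻¹ (w : V) := by rw [h1]

section Prod

variable {ι : Type*} {W : ι → Type*} [∀ i, NormedAddCommGroup (W i)] [∀ i, NormedSpace ℝ (W i)]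

/-- The product lattice. -/
def prodLat (L : ∀ i, Submodule ℤ (W i)) : Submodule ℤ (∀ i, W i) := Submodule.pi Set.univ L

/-- The product cone. -/
def prodCone (N : ∀ i, Set (W i)) : Set (∀ i, W i) := {v | ∀ i, v i ∈ N i}

/-- The product group, acting factor by factor. -/
def prodGroup (Γ : ∀ i, Subgroup (W i ≃ₗ[ℝ] W i)) : Subgroup ((∀ i, W i) ≃ₗ[ℝ] (∀ i, W i)) where
  carrier := {h | ∃ g : ∀ i, W i ≃ₗ[ℝ] W i, (∀ i, g i ∈ Γ i) ∧ ∀ v i, h v i = g i (v i)}
  mul_mem' := by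
    rintro a b ⟨g, hg, hga⟩ ⟨k, hk, hkb⟩
    refine ⟨fun i => g i * k i, fun i => (Γ i).mul_mem (hg i) (hk i), fun v i => ?_⟩
    show a (b v) i = g i (k i (v i))
    rw [hga, hkb]
  one_mem' := ⟨fun _ => 1, fun i => (Γ i).one_mem, fun v i => rfl⟩
  inv_mem' := by
    rintro a ⟨g, hg, hga⟩
    refine ⟨fun i => (g i)⁻¹, fun i => (Γ i).inv_mem (hg i), fun v i => ?_⟩
    have h1 : g i (a⁻¹ v i) = v i := by
      rw [← hga]
      have h2 : a (a⁻¹ v) = v := a.apply_symm_apply v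
      rw [h2]
    calc a⁻¹ v i = (g i)⁻¹ (g i (a⁻¹ v i)) := ((g i).symm_apply_apply _).symm
      _ = (g i)⁻¹ (v i) := by rw [h1]

end Prod

/-- The integral linear functionals that are positive on the closure of `N` minus the origin. -/
def Lam (L : Submodule ℤ V) (N : Set V) : Set (V →ₗ[ℝ] ℝ) :=
  {ξ | (∀ v ∈ L, ∃ n : ℤ, ξ v = n) ∧ ∀ v ∈ closure N, v ≠ 0 → 0 < ξ v}

end Pool.Agent.H39.Cone
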