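import Mathlib
import Pool.Agent.H39.Cone.Defs

set_option autoImplicit false

/-!
# Module CB: elementary facts on `coneOf` and on cones `N` with `IsNef N`

Everything here is routine. `closure_add`, `closure_smul`: continuity. `add_interior`: if `a ∈ interior N`,
choose a ball `B(a, r) ⊆ N`; for `x ∈ closure N` choose `y ∈ N` with `‖x - y‖ < r / 2`; the ball
`B(x + a, r / 2)` is contained in `y + B(a, r) ⊆ N`. `pos_functional`: see `Dual.lean`, not needed here.
`interior_iff_sum`: for `x = ∑ c s • s` with all `c s > 0`, `x ∈ interior N ↔ ∑ s ∈ interior N`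
(`x = ε ∑ s + (nonneg combination)`, and conversely; use `add_interior` and `smul_interior`).
-/

namespace Pool.Agent.H39.Cone

variable {V : Type*} [NormedAddCommGroup V] [NormedSpace ℝ V]

theorem zero_mem_coneOf (S : Finset V) : (0 : V) ∈ coneOf S := by
  exact ⟨fun _ => 0, fun _ _ => le_rfl, by simp⟩

theorem coneOf_add {S : Finset V} {x y : V} (hx : x ∈ coneOf S) (hy : y ∈ coneOf S) :
    x + y ∈ coneOf S := by
  obtain ⟨c, hc, rfl⟩ := hx
  obtain ⟨d, hd, rfl⟩ := hy
  refine ⟨fun s => c s + d s, fun s hs => add_nonneg (hc s hs) (hd s hs), ?_⟩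
  rw [← Finset.sum_add_distrib]
  exact Finset.sum_congr rfl fun s _ => add_smul _ _ _

theorem coneOf_smul {S : Finset V} {x : V} {c : ℝ} (hc : 0 ≤ c) (hx : x ∈ coneOf S) :
    c • x ∈ coneOf S := by
  obtain ⟨d, hd, rfl⟩ := hx
  refine ⟨fun s => c * d s, fun s hs => mul_nonneg hc (hd s hs), ?_⟩
  rw [Finset.smul_sum]
  exact Finset.sum_congr rfl fun s _ => mul_smul _ _ _

theorem mem_coneOf {S : Finset V} {s : V} (hs : s ∈ S) : s ∈ coneOf S := by
  classical
  refine ⟨fun t => if t = s then 1 else 0, fun t _ => ?_, ?_⟩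
  · show (0 : ℝ) ≤ if t = s then 1 else 0
    split_ifs <;> norm_num
  · simp [Finset.sum_ite_eq', hs]

theorem coneOf_sub {S : Finset V} {N : Set V} (h0 : (0 : V) ∈ N)
    (hadd : ∀ x ∈ N, ∀ y ∈ N, x + y ∈ N) (hsmul : ∀ c : ℝ, 0 < c → ∀ x ∈ N, c • x ∈ N)
    (hS : ∀ s ∈ S, s ∈ N) {x : V} (hx : x ∈ coneOf S) : x ∈ N := by
  classical
  obtain ⟨c, hc, rfl⟩ := hx
  induction S using Finset.induction_on with
  | empty => simpa using h0
  | insert a s ha ih =>
    rw [Finset.sum_insert ha]
    refine hadd _ ?_ _ (ih (fun t ht => hS t (Finset.mem_insert_of_mem ht))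
      (fun t ht => hc t (Finset.mem_insert_of_mem ht)))
    rcases (hc a (Finset.mem_insert_self a s)).eq_or_lt with h | h
    · rw [← h, zero_smul]; exact h0
    · exact hsmul _ h _ (hS a (Finset.mem_insert_self a s))

theorem coneOf_mono {S T : Finset V} (h : S ⊆ T) : coneOf S ⊆ coneOf T := by
  intro x hx
  exact coneOf_sub (zero_mem_coneOf T) (fun x hx y hy => coneOf_add hx hy)
    (fun c hc x hx => coneOf_smul hc.le hx) (fun s hs => mem_coneOf (h hs)) hx

theorem coneOf_convex (S : Finset V) : Convex ℝ (coneOf S) := by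
  intro x hx y hy a b ha hb _
  exact coneOf_add (coneOf_smul ha hx) (coneOf_smul hb hy)

/-- Images of `coneOf` under linear maps. -/
theorem mem_coneOf_image {W : Type*} [NormedAddCommGroup W] [NormedSpace ℝ W] [DecidableEq W]
    (f : V →ₗ[ℝ] W) (S : Finset V) (w : W) :
    w ∈ coneOf (S.image f) ↔ ∃ v ∈ coneOf S, f v = w := by
  constructor
  · intro hw
    refine coneOf_sub (N := {w | ∃ v ∈ coneOf S, f v = w}) ?_ ?_ ?_ ?_ hw
    · exact ⟨0, zero_mem_coneOf S, map_zero f⟩
    · rintro _ ⟨x, hx, rfl⟩ _ ⟨y, hy, rfl⟩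
      exact ⟨x + y, coneOf_add hx hy, map_add f x y⟩
    · rintro c hc _ ⟨x, hx, rfl⟩
      exact ⟨c • x, coneOf_smul hc.le hx, map_smul f c x⟩
    · intro s hs
      obtain ⟨t, ht, rfl⟩ := Finset.mem_image.mp hs
      exact ⟨t, mem_coneOf ht, rfl⟩
  · rintro ⟨v, hv, rfl⟩
    refine coneOf_sub (N := {v | f v ∈ coneOf (S.image f)}) ?_ ?_ ?_ ?_ hv
    · show f 0 ∈ coneOf (S.image f)
      rw [map_zero]; exact zero_mem_coneOf _
    · intro x hx y hy
      show f (x + y) ∈ coneOf (S.image f)
      rw [map_add]; exact coneOf_add hx hy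
    · intro c hc x hx
      show f (c • x) ∈ coneOf (S.image f)
      rw [map_smul]; exact coneOf_smul hc.le hx
    · intro s hs
      exact mem_coneOf (Finset.mem_image_of_mem f hs)

variable {N : Set V}

theorem IsNef.nonempty (h : IsNef N) : N.Nonempty := h.int.mono interior_subset

theorem IsNef.closure_add (h : IsNef N) {x y : V} (hx : x ∈ closure N) (hy : y ∈ closure N) :
    x + y ∈ closure N :=
  map_mem_closure₂ continuous_add hx hy fun a ha b hb => h.add a ha b hb

theorem IsNef.zero_mem_closure (h : IsNef N) : (0 : V) ∈ closure N := by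
  obtain ⟨x, hx⟩ := h.nonempty
  have h1 : Filter.Tendsto (fun n : ℕ => (1 / ((n : ℝ) + 1)) • x) Filter.atTop (nhds ((0 : ℝ) • x)) :=
    (tendsto_one_div_add_atTop_nhds_zero_nat (𝕜 := ℝ)).smul_const x
  rw [zero_smul] at h1
  exact mem_closure_of_tendsto h1 (Filter.Eventually.of_forall fun n => h.smul _ (by positivity) x hx)

theorem IsNef.closure_smul (h : IsNef N) {c : ℝ} (hc : 0 ≤ c) {x : V} (hx : x ∈ closure N) :
    c • x ∈ closure N := by
  rcases hc.eq_or_lt with h0 | h0
  · rw [← h0, zero_smul]; exact h.zero_mem_closure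
  · exact map_mem_closure (continuous_const_smul c) hx fun a ha => h.smul c h0 a ha

theorem IsNef.add_interior (h : IsNef N) {x a : V} (hx : x ∈ closure N) (ha : a ∈ interior N) :
    x + a ∈ interior N := by
  obtain ⟨r, hr, hB⟩ := Metric.isOpen_iff.mp isOpen_interior a ha
  obtain ⟨y, hy, hxy⟩ := Metric.mem_closure_iff.mp hx (r / 2) (by positivity)
  rw [mem_interior_iff_mem_nhds, Metric.mem_nhds_iff]
  refine ⟨r / 2, by positivity, fun z hz => ?_⟩
  have h1 : z - y ∈ Metric.ball a r := by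
    rw [Metric.mem_ball, dist_eq_norm] at hz ⊢
    rw [dist_eq_norm] at hxy
    calc ‖z - y - a‖ = ‖(z - (x + a)) + (x - y)‖ := by congr 1; abel
      _ ≤ ‖z - (x + a)‖ + ‖x - y‖ := norm_add_le _ _
      _ < r / 2 + r / 2 := add_lt_add hz hxy
      _ = r := by ring
  have h2 := h.add y hy (z - y) (interior_subset (hB h1))
  rwa [add_sub_cancel] at h2

theorem IsNef.smul_interior (h : IsNef N) {c : ℝ} (hc : 0 < c) {a : V} (ha : a ∈ interior N) :
    c • a ∈ interior N := by
  have h1 : IsOpen ((fun x : V => c • x) '' interior N) :=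
    (isOpenMap_smul₀ hc.ne') _ isOpen_interior
  have h2 : (fun x : V => c • x) '' interior N ⊆ N := by
    rintro _ ⟨x, hx, rfl⟩
    exact h.smul c hc x (interior_subset hx)
  exact interior_maximal h2 h1 ⟨a, ha, rfl⟩

theorem IsNef.zero_notMem_interior (h : IsNef N) {v : V} (hv : v ≠ 0) : (0 : V) ∉ interior N := by
  intro h0
  obtain ⟨r, hr, hB⟩ := Metric.isOpen_iff.mp isOpen_interior 0 h0
  have hnv : 0 < ‖v‖ := norm_pos_iff.mpr hv
  have key : ∀ w : V, ‖w‖ = ‖v‖ → w ∈ closure N := by
    intro w hw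
    have h1 : (r / (2 * ‖v‖)) • w ∈ interior N := hB (by
      rw [Metric.mem_ball, dist_zero_right, norm_smul, hw, Real.norm_of_nonneg (by positivity)]
      field_simp
      linarith)
    have h2 := h.smul (2 * ‖v‖ / r) (by positivity) _ (interior_subset h1)
    rw [smul_smul] at h2
    have h3 : 2 * ‖v‖ / r * (r / (2 * ‖v‖)) = 1 := by field_simp
    rw [h3, one_smul] at h2
    exact subset_closure h2
  exact hv (h.salient v (key v rfl) (key (-v) (norm_neg v)))

theorem IsNef.convex (h : IsNef N) : Convex ℝ (closure N) := by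
  intro x hx y hy a b ha hb _
  exact h.closure_add (h.closure_smul ha hx) (h.closure_smul hb hy)

theorem IsNef.coneOf_closure (h : IsNef N) {S : Finset V} (hS : ∀ s ∈ S, s ∈ closure N) {x : V}
    (hx : x ∈ coneOf S) : x ∈ closure N :=
  coneOf_sub h.zero_mem_closure (fun _ hx _ hy => h.closure_add hx hy)
    (fun _ hc _ hx => h.closure_smul hc.le hx) hS hx

/-- The support: a point of `coneOf S` in the interior of `N` is a positive combination of a subset
`T ⊆ S` whose sum is in the interior of `N`. -/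
theorem IsNef.exists_support (h : IsNef N) {S : Finset V} (hS : ∀ s ∈ S, s ∈ closure N) {x : V}
    (hx : x ∈ coneOf S) (hxi : x ∈ interior N) :
    ∃ T ⊆ S, ∃ c : V → ℝ, (∀ s ∈ T, 0 < c s) ∧ ∑ s ∈ T, c s • s = x ∧ ∑ s ∈ T, s ∈ interior N := by
  classical
  obtain ⟨c, hc, hcx⟩ := hx
  refine ⟨S.filter (fun s => 0 < c s), Finset.filter_subset _ _, c,
    fun s hs => (Finset.mem_filter.mp hs).2, ?_, ?_⟩
  · rw [← hcx, Finset.sum_filter]
    refine Finset.sum_congr rfl fun s hs => ?_
    split_ifs with h1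
    · rfl
    · rw [le_antisymm (not_lt.mp h1) (hc s hs), zero_smul]
  · set T := S.filter (fun s => 0 < c s) with hT
    obtain ⟨M, hM0, hM⟩ : ∃ M : ℝ, 0 < M ∧ ∀ s ∈ T, c s ≤ M := by
      refine ⟨1 + ∑ s ∈ T, |c s|, by positivity, fun s hs => ?_⟩
      have := Finset.single_le_sum (f := fun s => |c s|) (fun i _ => abs_nonneg _) hs
      linarith [le_abs_self (c s)]
    have hx' : ∑ s ∈ T, c s • s = x := by
      rw [← hcx, hT, Finset.sum_filter]
      refine Finset.sum_congr rfl fun s hs => ?_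
      split_ifs with h1
      · rfl
      · rw [le_antisymm (not_lt.mp h1) (hc s hs), zero_smul]
    have h1 : ∑ s ∈ T, s = (∑ s ∈ T, (1 - c s / M) • s) + M⁻¹ • x := by
      rw [← hx', Finset.smul_sum, ← Finset.sum_add_distrib]
      refine Finset.sum_congr rfl fun s _ => ?_
      rw [smul_smul, ← add_smul]
      have : 1 - c s / M + M⁻¹ * c s = 1 := by field_simp; ring
      rw [this, one_smul]
    rw [h1]
    refine h.add_interior (h.coneOf_closure (S := T) (fun s hs => hS s (Finset.mem_filter.mp hs).1)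
      ⟨_, fun s hs => ?_, rfl⟩) (h.smul_interior (inv_pos.mpr hM0) hxi)
    have := (div_le_one hM0).mpr (hM s hs)
    linarith

end Pool.Agent.H39.Cone
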