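import Mathlib
import Pool.Agent.H39.Cone.Basic

set_option autoImplicit false

/-!
# Module CA: the group acts on everything (routine)
-/

namespace Pool.Agent.H39.Cone

variable {V : Type*} [NormedAddCommGroup V] [NormedSpace ℝ V] [FiniteDimensional ℝ V]

theorem continuous_equiv (γ : V ≃ₗ[ℝ] V) : Continuous (γ : V → V) :=
  γ.toLinearMap.continuous_of_finiteDimensional

theorem continuous_lin (f : V →ₗ[ℝ] ℝ) : Continuous (f : V → ℝ) :=
  f.continuous_of_finiteDimensional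

theorem isOpenMap_equiv (γ : V ≃ₗ[ℝ] V) : IsOpenMap (γ : V → V) := by
  intro U hU
  have h : (γ : V → V) '' U = (γ.symm : V → V) ⁻¹' U := by
    ext x
    constructor
    · rintro ⟨y, hy, rfl⟩
      simpa using hy
    · intro hx
      exact ⟨γ.symm x, hx, by simp⟩
  rw [h]
  exact hU.preimage (continuous_equiv γ.symm)

variable {Γ : Subgroup (V ≃ₗ[ℝ] V)} {L : Submodule ℤ V} {N : Set V}

theorem Pres.lat (h : Pres Γ L N) {γ : V ≃ₗ[ℝ] V} (hγ : γ ∈ Γ) {v : V} (hv : v ∈ L) : γ v ∈ L :=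
  (h γ hγ).1 v hv

theorem Pres.cone (h : Pres Γ L N) {γ : V ≃ₗ[ℝ] V} (hγ : γ ∈ Γ) {v : V} (hv : v ∈ N) : γ v ∈ N :=
  (h γ hγ).2 v hv

theorem Pres.closure (h : Pres Γ L N) {γ : V ≃ₗ[ℝ] V} (hγ : γ ∈ Γ) {v : V} (hv : v ∈ closure N) :
    γ v ∈ _root_.closure N :=
  map_mem_closure (continuous_equiv γ) hv fun _ ha => h.cone hγ ha

theorem Pres.interior (h : Pres Γ L N) {γ : V ≃ₗ[ℝ] V} (hγ : γ ∈ Γ) {v : V} (hv : v ∈ interior N) :
    γ v ∈ _root_.interior N := by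
  have h1 : IsOpen ((γ : V → V) '' _root_.interior N) := isOpenMap_equiv γ _ isOpen_interior
  have h2 : (γ : V → V) '' _root_.interior N ⊆ N := by
    rintro _ ⟨x, hx, rfl⟩
    exact h.cone hγ (interior_subset hx)
  exact interior_maximal h2 h1 ⟨v, hv, rfl⟩

theorem Pres.lam (h : Pres Γ L N) {γ : V ≃ₗ[ℝ] V} (hγ : γ ∈ Γ) {ξ : V →ₗ[ℝ] ℝ} (hξ : ξ ∈ Lam L N) :
    ξ ∘ₗ γ.toLinearMap ∈ Lam L N := by
  refine ⟨fun v hv => hξ.1 _ (h.lat hγ hv), fun v hv hv0 => hξ.2 _ (h.closure hγ hv) ?_⟩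
  intro h0
  exact hv0 (γ.map_eq_zero_iff.mp h0)

/-- The group elements act on cones. -/
theorem mem_coneOf_map [DecidableEq V] (γ : V ≃ₗ[ℝ] V) (S : Finset V) (w : V) :
    w ∈ coneOf (S.image γ) ↔ ∃ v ∈ coneOf S, γ v = w :=
  mem_coneOf_image γ.toLinearMap S w

theorem inv_apply_apply (γ : V ≃ₗ[ℝ] V) (v : V) : γ⁻¹ (γ v) = v := γ.symm_apply_apply v

theorem apply_inv_apply (γ : V ≃ₗ[ℝ] V) (v : V) : γ (γ⁻¹ v) = v := γ.apply_symm_apply v

end Pool.Agent.H39.Cone
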