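import Mathlib
import Pool.Agent.H39.Cone.Basic

set_option autoImplicit false

/-!
# Module [H39 CC Dual]: positive functionals, lattice points

PROOFS. Write `C = closure N` (closed, convex by `IsNef.convex`, a cone by `IsNef.closure_smul`,
`0 ∈ C` by `IsNef.zero_mem_closure`).

`exists_pos_bound`. For `v ∈ C`, `v ≠ 0`, we have `-v ∉ C` (`IsNef.salient`), so `geometric_hahn_banach_closed_point`
gives a continuous `f` and `u` with `f a < u` on `C` and `u < f (-v)`. As `0 ∈ C`, `0 < u`. As `C` is a cone,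
`f a ≤ 0` on `C` (else a large multiple of `a` violates `f < u`). Put `φ_v = -f`: `φ_v ≥ 0` on `C` and
`φ_v v > 0`. The set `K = C ∩ sphere 0 1` is compact (finite dimension, `ProperSpace`, `isCompact_sphere`),
covered by the open sets `{φ_v > 0}`, `v ∈ K`; take a finite subcover (`IsCompact.elim_nhds_subcover` or
`elim_finite_subcover`) and `φ = ∑ φ_v`, positive on `K`. If `K` is empty take `ε = 1` (then `C = {0}`); otherwise
`φ` attains a positive minimum `ε` on `K` (`IsCompact.exists_isMinOn`), and `φ v = ‖v‖ φ (v/‖v‖) ≥ ε ‖v‖`.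
(A cleaner way to finish: `K` compact and `φ` continuous positive on it give `∃ ε > 0, ∀ x ∈ K, ε ≤ φ x`.)

`exists_pos_bound_of_pos`. The last step alone: a `φ` that is positive on `C` minus `0` satisfies
`ε ‖v‖ ≤ φ v` on `C` for some `ε > 0`.

`exists_lat_near`. Let `b = (Module.Free.chooseBasis ℤ L).ofZLatticeBasis ℝ L` (a real basis of `V` whose
integral span is `L`, `Module.Basis.ofZLatticeBasis_span`). With `R = ∑ i, ‖b i‖` and `l = ZSpan.floor b y`
we have `y - l = ZSpan.fract b y` and `‖ZSpan.fract b y‖ ≤ R` (`ZSpan.norm_fract_le`).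

`exists_lat_interior`. Let `x ∈ interior N`, ball of radius `r` around `x` in `interior N`; let `M` be a natural
number with `M > 0`, `M r > R`; `l ∈ L` near `M x`: `‖M x - l‖ ≤ R`, so `l / M` is in the ball, and
`l = M (l / M) ∈ interior N` by `IsNef.smul_interior`.

`exists_spanning`. `a` from `exists_lat_interior`, `b i` the basis vectors as above, ball of radius `r` around `a` in
`interior N`; `M` natural with `M r > ‖b i‖` for all `i` and `M > 0`; then `a + b i / M` is in the ball and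
`M a + b i ∈ interior N ∩ L`. Take `B = {a} ∪ {M a + b i}`; its span contains `a` and all `b i`, hence is `⊤`.

`exists_lat_functional_pos` (`Lam` is nonempty). `φ, ε` from `exists_pos_bound`. For a natural number
`M > 0` define `ψ` by `ψ (b i) = ⌊M φ (b i)⌋` (`Module.Basis.constr`, or `∑ i, ⌊M φ (b i)⌋ • b.coord i`). It takes integer values on
`L`: `ψ v = ∑ (b.repr v i) ψ (b i)` and the coordinates of `v ∈ L` are integers
(`Module.Basis.ofZLatticeBasis_repr_apply`). And `|ψ v - M φ v| ≤ ∑ |b.coord i v| ≤ K ‖v‖` with `K` independent of `M`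
(every linear functional is continuous, so `|b.coord i v| ≤ ‖b.coord i‖ ‖v‖`). For `v ∈ C`, `v ≠ 0`:
`ψ v ≥ (M ε - K) ‖v‖ > 0` when `M > K / ε`.
-/

namespace Pool.Agent.H39.Cone

variable {V : Type*} [NormedAddCommGroup V] [NormedSpace ℝ V] [FiniteDimensional ℝ V]

theorem exists_pos_bound_of_pos {N : Set V} (hN : IsNef N) (φ : V →ₗ[ℝ] ℝ)
    (hφ : ∀ v, v ∈ closure N → v ≠ 0 → 0 < φ v) :
    ∃ ε : ℝ, 0 < ε ∧ ∀ v, v ∈ closure N → ε * ‖v‖ ≤ φ v := by
  sorry

theorem exists_pos_bound {N : Set V} (hN : IsNef N) :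
    ∃ (φ : V →ₗ[ℝ] ℝ) (ε : ℝ), 0 < ε ∧ ∀ v, v ∈ closure N → ε * ‖v‖ ≤ φ v := by
  sorry

variable (L : Submodule ℤ V) [DiscreteTopology L] [IsZLattice ℝ L]

theorem exists_lat_near : ∃ R : ℝ, 0 ≤ R ∧ ∀ y : V, ∃ l ∈ L, ‖y - l‖ ≤ R := by
  sorry

theorem exists_lat_interior {N : Set V} (hN : IsNef N) : ∃ a ∈ L, a ∈ interior N := by
  sorry

theorem exists_spanning {N : Set V} (hN : IsNef N) :
    ∃ B : Finset V, (∀ b ∈ B, b ∈ L ∧ b ∈ interior N) ∧ Submodule.span ℝ (B : Set V) = ⊤ := by
  sorry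

theorem exists_mem_lam {N : Set V} (hN : IsNef N) : ∃ ξ, ξ ∈ Lam L N := by
  sorry

end Pool.Agent.H39.Cone
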