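import Mathlib
import Pool.Agent.H39.Cone.Dual

set_option autoImplicit false

/-!
# Module [H39 CC Closed]: finitely generated cones in the closure of `N` are closed

PROOF. `exists_pos_bound` gives a linear `φ` and `ε > 0` with `ε ‖v‖ ≤ φ v` for `v ∈ closure N`.
Put `S₀ = S.filter (· ≠ 0)`; `coneOf S = coneOf S₀` (drop the zero vector). For `c ≥ 0` the set
`K_c = coneOf S₀ ∩ {φ ≤ c}` is the image of the compact box
`{a : S₀ → ℝ | 0 ≤ a s ≤ c / (ε ‖s‖) for all s} ∩ {∑ a s φ s ≤ c}` (compact: `isCompact_univ_pi`, closed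
subset) under the continuous map `a ↦ ∑ a s • s` [all `φ s ≥ ε ‖s‖ > 0`, and all terms `a s φ s` are
nonnegative, so each of them is `≤ c`]. So `K_c` is compact, hence closed. If `x ∈ closure (coneOf S)`,
take `c = max (φ x + 1) 0`; the open set `{φ < φ x + 1}` contains `x`, so `x ∈ closure (coneOf S ∩ {φ < φ x + 1})`
`⊆ closure K_c = K_c` (`mem_closure_iff_nhds`, `IsOpen.inter_closure` or sequences). So `x ∈ coneOf S`.
-/

namespace Pool.Agent.H39.Cone

variable {V : Type*} [NormedAddCommGroup V] [NormedSpace ℝ V] [FiniteDimensional ℝ V]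

theorem isClosed_coneOf {N : Set V} (hN : IsNef N) {S : Finset V} (hS : ∀ s ∈ S, s ∈ closure N) :
    IsClosed (coneOf S) := by
  sorry

end Pool.Agent.H39.Cone
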