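import Mathlib
import Pool.Agent.H39.Cone.Basic

set_option autoImplicit false

/-!
# Module [H39 CC Half]: intersection of a rational polyhedral cone with rational half spaces

PROOFS. `half` (one step of the double description method). `f s` is an integer for `s ∈ S` (`S ⊆ L`). Put
`S' = {s ∈ S | 0 ≤ f s} ∪ {f s • t - f t • s | s, t ∈ S, 0 < f s, f t < 0}`. The new vectors `u s t = f s • t - f t • s` are in
`L` (integer multiples: `f s = (n : ℝ)`, `(n : ℝ) • t = n • t`, `L.smul_mem`), they are nonnegative combinations of elements of `S`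
and `f (u s t) = 0`. So `coneOf S' ⊆ coneOf S ∩ {0 ≤ f}` (`coneOf_sub` with the set on the right, which is a cone). Conversely let
`x = ∑ s ∈ S, c s • s`, `c s ≥ 0`, `0 ≤ f x`. Put `P = ∑_{f s > 0} c s f s`, `M = ∑_{f t < 0} c t (-f t)`; `f x = P - M ≥ 0`.
If `M = 0`, all `c t = 0` for `f t < 0` and `x = ∑_{f s ≥ 0} c s • s ∈ coneOf S'`. Otherwise `0 < M ≤ P` and
`x = ∑_{f s = 0} c s • s + (1 - M / P) • ∑_{f s > 0} c s • s + (1 / P) • ∑_{f s > 0} ∑_{f t < 0} (c s c t) • u s t`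
[expand `∑_{s,t} c s c t (f s • t - f t • s) = P • ∑_t c t • t + M • ∑_s c s • s`]. All terms are in `coneOf S'`
(`coneOf_add`, `coneOf_smul`, `mem_coneOf`, sums by induction).

`halfs`: induction on the finite set `T`.

`half_eq`: apply `halfs` with `T ∪ (-T)` (`0 ≤ f x` and `0 ≤ (-f) x` iff `f x = 0`).
-/

namespace Pool.Agent.H39.Cone

variable {V : Type*} [NormedAddCommGroup V] [NormedSpace ℝ V]

theorem coneOf_sum {ι : Type*} {S : Finset V} {I : Finset ι} {f : ι → V} (h : ∀ i ∈ I, f i ∈ coneOf S) :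
    ∑ i ∈ I, f i ∈ coneOf S := by
  classical
  induction I using Finset.induction_on with
  | empty => simpa using zero_mem_coneOf S
  | insert a s ha ih =>
    rw [Finset.sum_insert ha]
    exact coneOf_add (h a (Finset.mem_insert_self a s)) (ih fun i hi => h i (Finset.mem_insert_of_mem hi))

theorem half (L : Submodule ℤ V) {S : Finset V} (hS : ∀ s ∈ S, s ∈ L) {f : V →ₗ[ℝ] ℝ}
    (hf : ∀ v ∈ L, ∃ n : ℤ, f v = n) :
    ∃ S' : Finset V, (∀ s ∈ S', s ∈ L) ∧ ∀ x, x ∈ coneOf S' ↔ x ∈ coneOf S ∧ 0 ≤ f x := by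
  sorry

theorem halfs (L : Submodule ℤ V) {S : Finset V} (hS : ∀ s ∈ S, s ∈ L) (T : Finset (V →ₗ[ℝ] ℝ))
    (hT : ∀ f ∈ T, ∀ v ∈ L, ∃ n : ℤ, f v = n) :
    ∃ S' : Finset V, (∀ s ∈ S', s ∈ L) ∧ ∀ x, x ∈ coneOf S' ↔ x ∈ coneOf S ∧ ∀ f ∈ T, 0 ≤ f x := by
  sorry

theorem half_eq (L : Submodule ℤ V) {S : Finset V} (hS : ∀ s ∈ S, s ∈ L) (T : Finset (V →ₗ[ℝ] ℝ))
    (hT : ∀ f ∈ T, ∀ v ∈ L, ∃ n : ℤ, f v = n) :
    ∃ S' : Finset V, (∀ s ∈ S', s ∈ L) ∧ ∀ x, x ∈ coneOf S' ↔ x ∈ coneOf S ∧ ∀ f ∈ T, f x = 0 := by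
  sorry

end Pool.Agent.H39.Cone
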