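import Mathlib
import Pool.Agent.H39.Cone.Dual
import Pool.Agent.H39.Cone.Act

set_option autoImplicit false

/-!
# Module [H39 CC LamFin]: finiteness statements

PROOFS. `B` = the finite set of `exists_spanning` (contained in `L ∩ interior N`, spans `V`).

`finite_slice`. `exists_pos_bound_of_pos` for `η`: `ε ‖v‖ ≤ η v ≤ c` on the set, so it is bounded; a bounded
subset of a discrete subgroup is finite (`Metric.finite_isBounded_inter_isClosed`,
`AddSubgroup.isClosed_of_discrete` for `L.toAddSubgroup`; or `ZLattice`/`Submodule` variants).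

`finite_transporter`. An element `γ` of the set maps each `b ∈ B` into the finite set
`Z = {w ∈ L | w ∈ closure N, η w ≤ ∑ b ∈ B, |ξ b|}` [`η (γ b) = ξ b`, `Pres.lat`, `Pres.closure`], and `γ` is determined by the
values on `B` (which spans: `LinearMap.ext_on` / `LinearMap.eqOn_span`). So `γ ↦ (b ↦ γ b)` is an injection of the
set into the finite set of functions `B → Z` (`Set.Finite.of_injOn` with target `Set.pi univ (fun _ => Z)`, `Set.Finite.pi'`;
or `Set.Finite.of_finite_image`).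

`finite_lam_le`. Let `a ∈ interior N`. For `b ∈ B` there is a natural `M b` with `M b • a - b ∈ closure N` [ball of radius `r`
around `a` in `N`: `a - b / M` is in it for large `M`; multiply by `M`]. For `ξ ∈ Lam L N` with `ξ a ≤ c`:
`0 ≤ ξ (M a - b)` (it is `> 0` or the vector is `0`), so `0 ≤ ξ b ≤ M c`; `ξ b` is an integer, so it lies in the finite set
`{(n : ℝ) | 0 ≤ n ≤ M b * c}`. `ξ` is determined by its values on `B`.

`exists_min`. `Ω ⊆ Lam L N` nonempty, `x ∈ interior N`, `ω₀ ∈ Ω`: the set `{ω ∈ Ω | ω x ≤ ω₀ x}` is finite and nonempty;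
take the element with the smallest value at `x` (`Set.exists_min_image`).
-/

namespace Pool.Agent.H39.Cone

variable {V : Type*} [NormedAddCommGroup V] [NormedSpace ℝ V] [FiniteDimensional ℝ V]
variable {L : Submodule ℤ V} [DiscreteTopology L] [IsZLattice ℝ L] {N : Set V} {Γ : Subgroup (V ≃ₗ[ℝ] V)}

theorem finite_slice (hN : IsNef N) {η : V →ₗ[ℝ] ℝ} (hη : η ∈ Lam L N) (c : ℝ) :
    {v : V | v ∈ L ∧ v ∈ closure N ∧ η v ≤ c}.Finite := by
  sorry

theorem finite_transporter (hN : IsNef N) (hP : Pres Γ L N) {ξ η : V →ₗ[ℝ] ℝ} (hξ : ξ ∈ Lam L N)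
    (hη : η ∈ Lam L N) : {γ : V ≃ₗ[ℝ] V | γ ∈ Γ ∧ ∀ v, η (γ v) = ξ v}.Finite := by
  sorry

theorem finite_lam_le (hN : IsNef N) {a : V} (ha : a ∈ interior N) (c : ℝ) :
    {ξ : V →ₗ[ℝ] ℝ | ξ ∈ Lam L N ∧ ξ a ≤ c}.Finite := by
  sorry

theorem exists_min (hN : IsNef N) {Ω : Set (V →ₗ[ℝ] ℝ)} (hΩ : Ω ⊆ Lam L N) (hne : Ω.Nonempty) {x : V}
    (hx : x ∈ interior N) : ∃ ω ∈ Ω, ∀ ω' ∈ Ω, ω x ≤ ω' x := by
  sorry

end Pool.Agent.H39.Cone
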