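import Mathlib
import Pool.Agent.H39.Cone.LamFin

set_option autoImplicit false

/-!
# Module [H39 CC Dickson]: Dickson's lemma for the value vectors

PROOFS. `dickson`. For `ξ ∈ Ω ⊆ Lam L N` and `s ∈ R ⊆ L ∩ closure N` the value `ξ s` is a natural number (an integer, and
`≥ 0` because it is positive or `s = 0`). Let `val ξ : R → ℕ` be the value vector (`Int.toNat` of the chosen integer or
`⌊ξ s⌋₊`; `(val ξ s : ℝ) = ξ s`). The set `A = val '' Ω` of vectors in `R → ℕ` (finite index set; `Pi.wellQuasiOrderedLE`,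
`Set.isPWO_of_wellQuasiOrderedLE`, Dickson's lemma) has finitely many minimal elements (an antichain in a well quasi order is finite:
`WellQuasiOrderedLE.finite_of_isAntichain` or `Set.IsPWO.finite_of_isAntichain`/`setOf_minimal_antichain`), and every element of
`A` is above a minimal one (well founded: `exists_le_minimal` or `WellFounded`/`Set.IsPWO.exists_le_minimal`). Choose one
`ξ ∈ Ω` for each minimal vector.

`finite_minimisers`. Let `ξ` be in the set with the point `x ∈ coneOf R ∩ interior N`. By `IsNef.exists_support`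
`x = ∑ s ∈ T, c s • s` with `T ⊆ R`, all `c s > 0`, `t := ∑ s ∈ T, s ∈ interior N`. Let `D` be the finite subset of `Ω` given by `dickson`
for `T`: there is `ω ∈ D` with `ω s ≤ ξ s` for all `s ∈ T`. But `ξ x ≤ ω x`, i.e. `∑ c s (ω s - ξ s) ≥ 0` with all terms `≤ 0`;
so `ω s = ξ s` for `s ∈ T` and `ξ t = ω t ≤ ∑ ω ∈ D, |ω t|`. So `ξ` is in the finite set of `finite_lam_le` for `t` and this
constant. There are finitely many `T ⊆ R` (`R.powerset`): the set is contained in the union over `T ∈ R.powerset` with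
`∑ s ∈ T, s ∈ interior N` of finite sets (`Set.Finite.biUnion`, `Set.Finite.subset`).
-/

namespace Pool.Agent.H39.Cone

variable {V : Type*} [NormedAddCommGroup V] [NormedSpace ℝ V] [FiniteDimensional ℝ V]
variable {L : Submodule ℤ V} [DiscreteTopology L] [IsZLattice ℝ L] {N : Set V}

theorem dickson {V : Type*} [NormedAddCommGroup V] [NormedSpace ℝ V] {L : Submodule ℤ V} {N : Set V}
    {Ω : Set (V →ₗ[ℝ] ℝ)} (hΩ : Ω ⊆ Lam L N) {R : Finset V}
    (hR : ∀ s ∈ R, s ∈ L ∧ s ∈ closure N) :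
    ∃ D : Finset (V →ₗ[ℝ] ℝ), (∀ ω ∈ D, ω ∈ Ω) ∧ ∀ ξ ∈ Ω, ∃ ω ∈ D, ∀ s ∈ R, ω s ≤ ξ s := by
  sorry

theorem finite_minimisers (hN : IsNef N) {Ω : Set (V →ₗ[ℝ] ℝ)} (hΩ : Ω ⊆ Lam L N) {R : Finset V}
    (hR : ∀ s ∈ R, s ∈ L ∧ s ∈ closure N) :
    {ξ : V →ₗ[ℝ] ℝ | ξ ∈ Ω ∧ ∃ x ∈ coneOf R, x ∈ interior N ∧ ∀ ω ∈ Ω, ξ x ≤ ω x}.Finite := by
  sorry

end Pool.Agent.H39.Cone
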