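import Mathlib
import Pool.Agent.H39.Cone.Dickson

set_option autoImplicit false

/-!
# Module [H39 CC Siegel]: the Siegel property

PROOF. Take `Ω = Lam L N` in `finite_minimisers`: the sets
`E i = {ξ ∈ Lam L N | ∃ x ∈ coneOf (S i) ∩ interior N, ∀ ω ∈ Lam L N, ξ x ≤ ω x}` (`i = 1, 2`) are finite. Let `γ` be in the set
with the point `x`: `γ x ∈ interior N`, so `x = γ⁻¹ (γ x) ∈ interior N` (`Pres.interior` for `γ⁻¹ ∈ Γ`). Let `ξ` be a minimiser over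
`Lam L N` at `x` (`exists_min`, `Lam L N` is not empty by `exists_mem_lam`), so `ξ ∈ E 1`. Put `η = ξ ∘ γ⁻¹ ∈ Lam L N`
(`Pres.lam`). For `ω ∈ Lam L N`: `η (γ x) = ξ x ≤ (ω ∘ γ) x = ω (γ x)`, so `η ∈ E 2`. And `η (γ v) = ξ v` for all `v`: `γ` is in
the finite set `finite_transporter` of `(ξ, η)`. So the set is contained in the union over `E 1 × E 2` of finite sets.
-/

namespace Pool.Agent.H39.Cone

variable {V : Type*} [NormedAddCommGroup V] [NormedSpace ℝ V] [FiniteDimensional ℝ V]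
variable {L : Submodule ℤ V} [DiscreteTopology L] [IsZLattice ℝ L] {N : Set V} {Γ : Subgroup (V ≃ₗ[ℝ] V)}

theorem siegel (hN : IsNef N) (hP : Pres Γ L N) {S₁ S₂ : Finset V}
    (h₁ : ∀ s ∈ S₁, s ∈ L ∧ s ∈ closure N) (h₂ : ∀ s ∈ S₂, s ∈ L ∧ s ∈ closure N) :
    {γ : V ≃ₗ[ℝ] V | γ ∈ Γ ∧ ∃ x ∈ coneOf S₁, γ x ∈ coneOf S₂ ∧ γ x ∈ interior N}.Finite := by
  sorry

end Pool.Agent.H39.Cone
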