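import Mathlib
import Pool.Agent.H39.Cone.Siegel
import Pool.Agent.H39.Cone.Closed
import Pool.Agent.H39.Cone.Half

set_option autoImplicit false

/-!
# Module [H39 CC Descent]: descent to the fixed subspace of a finite group (inside `V`)

PROOFS. `exists_fixed_interior`: `a ∈ L ∩ interior N` (`exists_lat_interior`), `a₀ = ∑ g : G, g a`; each `g a ∈ L ∩ interior N`
(`Pres.lat`, `Pres.interior`), a nonempty finite sum of elements of `interior N` is in `interior N` (`IsNef.add_interior`, induction over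
`Finset` with one element taken out), and `h a₀ = a₀` for `h ∈ G` (reindex, `Fintype.sum_equiv` / `Equiv.mulLeft`).

`fixed_coneOf`: `b` = a lattice basis of `V` with coordinate functionals `e i = b.coord i` (`b = (Module.Free.chooseBasis ℤ
L).ofZLatticeBasis ℝ L`, integral on `L` by `Module.Basis.ofZLatticeBasis_repr_apply`); `v` is fixed by `G` iff
`e i (g v - v) = 0` for all `i` and `g ∈ G`; these are finitely many functionals, integral on `L` (`g` preserves `L`); `half_eq`.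

`descent_interior`. `coneOf S ⊆ N` for `S ∈ F` (`hF` with `γ = 1`), so `S ⊆ L ∩ closure N`, and `0 ∈ N`. For `S ∈ F` the set
`Σ S = {h ∈ Γ | ∃ x ∈ coneOf S, h x ∈ coneOf S ∧ h x ∈ interior N}` is finite (`siegel`). Consider the pairs `(S, H)`, `S ∈ F`,
`H` a subset of `Σ S` (a finite set of sets) of the form `H = {g⁻¹ k g | k ∈ G}` for some `g ∈ Γ`; choose one such `g = g_{S,H}`. Let
`C_{S,H}` be a finite subset of `L` with `coneOf C_{S,H} = {x ∈ coneOf (S.image g_{S,H}) | x fixed by G}` (`fixed_coneOf`).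
These finitely many sets are `F'`. Its generators are in `L`, in `N` (indeed in `g (coneOf S) ⊆ N`), fixed by `G`.
Let `x ∈ interior N` be fixed by `G`: `x = g y`, `g ∈ Γ`, `y ∈ coneOf S`, `S ∈ F`. `H = g⁻¹ G g` is contained in `Σ S`: for
`h = g⁻¹ k g`, `h y = g⁻¹ k x = g⁻¹ x = y` and `y = g⁻¹ x ∈ interior N`. Let `g' = g_{S,H}`: `g'⁻¹ G g' = g⁻¹ G g` as sets, so
`n = g g'⁻¹` satisfies `n G n⁻¹ = G`: for `k ∈ G`: `n k n⁻¹ = g (g'⁻¹ k g') g⁻¹ ∈ g (g⁻¹ G g) g⁻¹ = G`, and the same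
backwards. `p = g' y = n⁻¹ x ∈ coneOf (S.image g')` is fixed by `G`: `k n⁻¹ x = n⁻¹ (n k n⁻¹) x = n⁻¹ x`. So `p ∈ coneOf
C_{S,H}` and `x = n p`.
(It may be easier to show existence in the form: for each `S ∈ F` there is a finite set `Gs ⊆ Γ` such that for all `g ∈ Γ` with
`g⁻¹ G g ⊆ Σ S` there is `g' ∈ Gs` with `g'⁻¹ G g' = g⁻¹ G g`; this is the finiteness of the image of the map
`g ↦ {g⁻¹ k g | k ∈ G}` from this set to the subsets of the finite set `Σ S` (`Set.Finite.finite_subsets`, `Set.Finite.subset`), then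
choose preimages: `Set.Finite.exists_finset...`/`Set.exists_subset_bijOn`/`Set.Finite.exists_maximal...`, or
`Set.exists_finite_...`: from a finite image `f '' A` one gets a finite `B ⊆ A` with `f '' B = f '' A`.)

`descent_core`. Same `F'`. Let `x ∈ N` be fixed by `G`. `x = g₁ y₁`, `y₁ ∈ coneOf S₁`, `S₁ ∈ F`; so
`x ∈ coneOf (S₁.image g₁)` and, `x` being fixed, `x ∈ coneOf R` with `R` finite, `R ⊆ L`, all elements of `coneOf R` in
`coneOf (S₁.image g₁) ⊆ N` (`fixed_coneOf`). Let `R⁺ = insert a₀ R`. For `k : ℕ`, `x k = x + (1/(k+1)) a₀` is in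
`coneOf R⁺ ∩ interior N` and fixed by `G`, so by `descent_interior` there are `n k` and `S k ∈ F'` with `x k = n k (p k)`,
`p k ∈ coneOf (S k)`. So `(n k)⁻¹` is in the set of `siegel` for `(R⁺, S k)` [`(n k)⁻¹ x k = p k ∈ interior N`
as `(n k)⁻¹ ∈ Γ`]: the pairs `(n k, S k)` range over a finite set. One pair `(n, S)` occurs for infinitely many `k`, so `n⁻¹ x k ∈
coneOf S` for infinitely many `k`; `coneOf S` is closed (`isClosed_coneOf`) and `n⁻¹ x k → n⁻¹ x`, so `n⁻¹ x ∈ coneOf S` and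
`x = n (n⁻¹ x)`.
-/

namespace Pool.Agent.H39.Cone

variable {V : Type*} [NormedAddCommGroup V] [NormedSpace ℝ V] [FiniteDimensional ℝ V]
variable {L : Submodule ℤ V} [DiscreteTopology L] [IsZLattice ℝ L] {N : Set V} {Γ : Subgroup (V ≃ₗ[ℝ] V)}

theorem exists_fixed_interior (hN : IsNef N) (hP : Pres Γ L N) (G : Subgroup (V ≃ₗ[ℝ] V)) [Finite G] (hG : G ≤ Γ) :
    ∃ a ∈ L, a ∈ interior N ∧ ∀ g ∈ G, g a = a := by
  sorry

theorem fixed_coneOf (G : Subgroup (V ≃ₗ[ℝ] V)) [Finite G] (hGL : ∀ g ∈ G, ∀ v ∈ L, g v ∈ L) {S : Finset V}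
    (hS : ∀ s ∈ S, s ∈ L) :
    ∃ S' : Finset V, (∀ s ∈ S', s ∈ L) ∧ ∀ x, x ∈ coneOf S' ↔ x ∈ coneOf S ∧ ∀ g ∈ G, g x = x := by
  sorry

theorem descent_interior (hN : IsNef N) (hP : Pres Γ L N) {F : Finset (Finset V)}
    (hFL : ∀ S ∈ F, ∀ s ∈ S, s ∈ L)
    (hF : ∀ v, v ∈ N ↔ ∃ γ ∈ Γ, ∃ S ∈ F, ∃ p ∈ coneOf S, γ p = v)
    (G : Subgroup (V ≃ₗ[ℝ] V)) [Finite G] (hG : G ≤ Γ) :
    ∃ F' : Finset (Finset V), (∀ S ∈ F', ∀ s ∈ S, s ∈ L ∧ s ∈ N ∧ ∀ g ∈ G, g s = s) ∧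
      ∀ v, v ∈ interior N → (∀ g ∈ G, g v = v) →
        ∃ n ∈ Γ, (∀ g, g ∈ G ↔ n * g * n⁻¹ ∈ G) ∧ ∃ S ∈ F', ∃ p ∈ coneOf S, n p = v := by
  sorry

theorem descent_core (hN : IsNef N) (hP : Pres Γ L N) (hC : Cov Γ L N)
    (G : Subgroup (V ≃ₗ[ℝ] V)) [Finite G] (hG : G ≤ Γ) :
    ∃ F' : Finset (Finset V), (∀ S ∈ F', ∀ s ∈ S, s ∈ L ∧ s ∈ N ∧ ∀ g ∈ G, g s = s) ∧
      ∀ v, v ∈ N → (∀ g ∈ G, g v = v) →
        ∃ n ∈ Γ, (∀ g, g ∈ G ↔ n * g * n⁻¹ ∈ G) ∧ ∃ S ∈ F', ∃ p ∈ coneOf S, n p = v := by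
  sorry

end Pool.Agent.H39.Cone
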