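import Mathlib
import Pool.Agent.H39.Cone.Descent

set_option autoImplicit false

/-!
# Module [H39 CC Fixed]: the fixed subspace as a space with lattice and cone

PROOFS. Norm and scalar structure of `fixedSub G` are the subspace ones (automatic instances), it is finite dimensional.

`discrete_fixedLat`: the inclusion `fixedSub G → V` is an isometry; `0` is isolated in `L`, hence in `fixedLat G L`
(`DiscreteTopology` of a subgroup: e.g. the map `fixedLat G L → L` is an injective continuous map, use
`DiscreteTopology.of_continuous_injective`).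

`span_fixedLat`: `IsZLattice` is the statement `span ℝ (fixedLat G L) = ⊤`. Let `b` be the real basis of `V` with integral span `L`
and `w ∈ fixedSub G`, `w = ∑ c i • b i`. Summing over the group: `|G| w = ∑_g g w = ∑ i, c i • u i`, `u i = ∑_g g (b i) ∈ L`, fixed by
`G`. So `w = ∑ i, (c i / |G|) • u i ∈ span`.

`isNef_fixedCone`: `add`, `smul` clear; `int`: the set `{w | (w : V) ∈ interior N}` is open (continuous inclusion), contained in
`fixedCone G N` and contains the point of `exists_fixed_interior`; `salient`: the inclusion maps `closure (fixedCone G N)` into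
`closure N` (`map_mem_closure`).

`pres_normImage`: for `h ∈ normImage Γ G` with `n ∈ Γ` as in the definition: `((h w : fixedSub G) : V) = n w`, in `L` if `w ∈ L`, in
`N` if `w ∈ N`.

`cov_normImage`: `F'` from `descent_core`; its elements `S` consist of vectors fixed by `G`; replace `S` by the finite
set `S' = S.attach.image (fun s => ⟨s, _⟩)` of `fixedSub G` (or `S.subtype`/`Finset.image`); `w ∈ coneOf S' ↔ (w : V) ∈ coneOf S`
(one can use `mem_coneOf_image` for the inclusion `(fixedSub G).subtype`: the image of `S'` is `S`, the inclusion is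
injective). For `n ∈ Γ` with `∀ g, g ∈ G ↔ n g n⁻¹ ∈ G` the restriction of `n` to `fixedSub G` is an element `h` of
`normImage Γ G`: `n` maps `V^G` to itself (for `w` fixed, `g n w = n (n⁻¹ g n) w = n w`, where `n⁻¹ g n ∈ G` by the hypothesis applied to
`n⁻¹ g n`), the same for `n⁻¹`, so `LinearEquiv.ofSubmodule`/ an explicit `LinearEquiv` with inverse.
-/

namespace Pool.Agent.H39.Cone

variable {V : Type*} [NormedAddCommGroup V] [NormedSpace ℝ V] [FiniteDimensional ℝ V]
variable {L : Submodule ℤ V} [DiscreteTopology L] [IsZLattice ℝ L] {N : Set V} {Γ : Subgroup (V ≃ₗ[ℝ] V)}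

theorem discrete_fixedLat {V : Type*} [NormedAddCommGroup V] [NormedSpace ℝ V]
    (L : Submodule ℤ V) [DiscreteTopology L] (G : Subgroup (V ≃ₗ[ℝ] V)) :
    DiscreteTopology (fixedLat G L) := by
  sorry

theorem isZLattice_fixedLat (G : Subgroup (V ≃ₗ[ℝ] V)) [Finite G] (hGL : ∀ g ∈ G, ∀ v ∈ L, g v ∈ L)
    [DiscreteTopology (fixedLat G L)] : IsZLattice ℝ (fixedLat G L) := by
  sorry

theorem isNef_fixedCone (hN : IsNef N) (hP : Pres Γ L N) (G : Subgroup (V ≃ₗ[ℝ] V)) [Finite G] (hG : G ≤ Γ) :
    IsNef (fixedCone G N) := by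
  sorry

theorem pres_normImage {V : Type*} [NormedAddCommGroup V] [NormedSpace ℝ V] {L : Submodule ℤ V} {N : Set V}
    {Γ : Subgroup (V ≃ₗ[ℝ] V)} (hP : Pres Γ L N) (G : Subgroup (V ≃ₗ[ℝ] V)) :
    Pres (normImage Γ G) (fixedLat G L) (fixedCone G N) := by
  sorry

theorem cov_normImage (hN : IsNef N) (hP : Pres Γ L N) (hC : Cov Γ L N)
    (G : Subgroup (V ≃ₗ[ℝ] V)) [Finite G] (hG : G ≤ Γ) :
    Cov (normImage Γ G) (fixedLat G L) (fixedCone G N) := by
  sorry

end Pool.Agent.H39.Cone
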