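import Mathlib
import Pool.Agent.H39.Cone.LamFin

set_option autoImplicit false

/-!
# Module [H39 CC Stab]: an integral functional with trivial stabiliser

PROOF. Let `ξ₁ ∈ Lam L N` (`exists_mem_lam`) and `St = {γ ∈ Γ | ∀ v, ξ₁ (γ v) = ξ₁ v}`, finite by `finite_transporter`. Let
`e i = b.coord i` be the coordinate functionals of the real basis `b = (Module.Free.chooseBasis ℤ L).ofZLatticeBasis ℝ L`
(they take integral values on `L`: `Module.Basis.ofZLatticeBasis_repr_apply`). Reindex the basis by `Fin n`. For a natural number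
`T` put `ζ_T = ∑ i : Fin n, T ^ i e i`. For `γ ≠ 1` there is `v` with `γ v ≠ v`, so the polynomial
`∑ i, (e i (γ v) - e i v) X ^ i` is not zero (the coordinates determine the vector) and has finitely many roots; the set `St` is finite, so there is a
natural number `T` which is not a root of any of these polynomials, `γ ∈ St \ {1}`. So `ζ = ζ_T` satisfies
`ζ ∘ γ ≠ ζ` for all `γ ∈ St \ {1}`. Let `|ζ v| ≤ K ‖v‖` for all `v` (finite dimension) and `ε ‖v‖ ≤ ξ₁ v` on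
`closure N` (`exists_pos_bound_of_pos`). For natural `m` put `ξ = m ξ₁ + ζ`: integral on `L`, positive on `closure N` minus `0` if
`m ε > K`. Stabiliser of `ξ` for large `m`: suppose `ξ ∘ γ = ξ`, `γ ∈ Γ`, i.e. `m (ξ₁ (γ v) - ξ₁ v) = ζ v - ζ (γ v)` for all `v`.
It is enough to show that `γ ∈ St`, since then `ζ ∘ γ = ζ`, so `γ = 1`.
Let `B ⊆ L ∩ interior N` be the finite spanning set of `exists_spanning`.
For `b ∈ B`: `ξ (γ b) = ξ b` and `γ b ∈ closure N`, so `(m ε - K) ‖γ b‖ ≤ ξ (γ b) = ξ b ≤ m ξ₁ b + K ‖b‖`, and for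
`m ε ≥ 2 K`, `m ≥ 1`: `(m ε / 2) ‖γ b‖ ≤ m (ξ₁ b + K ‖b‖)`, so `‖γ b‖ ≤ (2 / ε) (ξ₁ b + K ‖b‖) =: ρ b`, independent of `m`
and `γ`. So `|ζ b - ζ (γ b)| ≤ K (‖b‖ + ρ b)`; if `m > K (‖b‖ + ρ b)` for all `b ∈ B`, the integer `ξ₁ (γ b) - ξ₁ b` has absolute
value `< 1`, so it is `0` for all `b ∈ B`, and `ξ₁ ∘ γ = ξ₁` because `B` spans `V`.
-/

namespace Pool.Agent.H39.Cone

variable {V : Type*} [NormedAddCommGroup V] [NormedSpace ℝ V] [FiniteDimensional ℝ V]
variable {L : Submodule ℤ V} [DiscreteTopology L] [IsZLattice ℝ L] {N : Set V} {Γ : Subgroup (V ≃ₗ[ℝ] V)}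

/-- An integral functional `ζ` that is moved by every nontrivial element of a finite set of automorphisms. -/
theorem exists_moved {V : Type*} [NormedAddCommGroup V] [NormedSpace ℝ V] [FiniteDimensional ℝ V]
    (L : Submodule ℤ V) [DiscreteTopology L] [IsZLattice ℝ L] {St : Set (V ≃ₗ[ℝ] V)} (hSt : St.Finite) :
    ∃ ζ : V →ₗ[ℝ] ℝ, (∀ v ∈ L, ∃ n : ℤ, ζ v = n) ∧ ∀ γ ∈ St, (∀ v, ζ (γ v) = ζ v) → γ = 1 := by
  sorry

theorem exists_trivial_stab (hN : IsNef N) (hP : Pres Γ L N) :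
    ∃ ξ, ξ ∈ Lam L N ∧ ∀ γ ∈ Γ, (∀ v, ξ (γ v) = ξ v) → γ = 1 := by
  sorry

end Pool.Agent.H39.Cone
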