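import Mathlib
import Pool.Agent.H39.Cone.Dickson
import Pool.Agent.H39.Cone.Stab
import Pool.Agent.H39.Cone.Half

set_option autoImplicit false

/-!
# Module [H39 CC Fund]: finitely many cones give a fundamental domain

PROOF. Let `F` be as in `Cov`. For `S ∈ F`: `coneOf S ⊆ N` (take `γ = 1`), so `S ⊆ L ∩ N`; `F` is not empty (`N` is not), so
`0 ∈ N`. Let `a ∈ L ∩ interior N` (`exists_lat_interior`) and `S⁺ = insert a S`; `coneOf S⁺ ⊆ N` (`coneOf_sub`).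
Let `ξ₀ ∈ Lam L N` with trivial stabiliser in `Γ` (`exists_trivial_stab`) and
`Ω = {ω | ∃ γ ∈ Γ, ω = ξ₀ ∘ₗ γ.toLinearMap} ⊆ Lam L N` (`Pres.lam`). `D = {x | ∀ ω ∈ Ω, ξ₀ x ≤ ω x}` is a closed convex cone.

For `S ∈ F` let `M S = {ξ ∈ Ω | ∃ x ∈ coneOf S⁺, x ∈ interior N ∧ ∀ ω ∈ Ω, ξ x ≤ ω x}`, finite by `finite_minimisers`.
For `ω ∈ M S` let `Q S ω = {x ∈ coneOf S⁺ | ∀ ω' ∈ M S, ω x ≤ ω' x}`, equal to `coneOf (R S ω)` with a finite `R S ω ⊆ L` by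
`halfs` (functionals `ω' - ω`). Choose `γ S ω = g ω ∈ Γ` with `ω = ξ₀ ∘ g ω`. Put
`P = coneOf R`, `R = ⋃ S ∈ F, ω ∈ M S, (R S ω).image (g ω)` (a finite subset of `L`).

(i) `P ⊆ N`: every generator is in `g ω (coneOf S⁺) ⊆ N`.
(ii) `P ⊆ D`: it is enough to show that `g ω x ∈ D` for `x ∈ Q S ω`. Let `x₀ ∈ coneOf S⁺ ∩ interior N` be the point in the definition of
`ω ∈ M S`. For `t > 0` the point `z = x + t x₀` is in `coneOf S⁺ ∩ interior N` (`IsNef.add_interior`), and `ω z ≤ ω' z` for all `ω' ∈ M S`.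
By `exists_min` there is a minimiser `ω'` over `Ω` at `z`, it is in `M S`, so `ω z ≤ ω' z ≤ ω'' z` for all
`ω'' ∈ Ω`. Let `t → 0`: `ω x ≤ ω'' x` for all `ω'' ∈ Ω`. For `ω'' = ω₁ ∘ g ω`, `ω₁ ∈ Ω`: `ξ₀ (g ω x) = ω x ≤ ω₁ (g ω x)`.
(iii) (a): `v ∈ N` iff `v ∈ γ P` for some `γ ∈ Γ`. `P ⊆ N` gives one direction. Let `v ∈ N`, `v = γ y`, `y ∈ coneOf S`,
`S ∈ F`. The points `y k = y + (1/(k+1)) a` are in `coneOf S⁺ ∩ interior N`; let `ω k ∈ Ω` be a minimiser over `Ω` at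
`y k`; `ω k ∈ M S`, which is finite, so one `ω ∈ M S` is equal to `ω k` for infinitely many `k`
(`Set.infinite_of...`, or: otherwise for each `ω ∈ M S` there is `k ω` with `ω k ≠ ω` for `k ≥ k ω`; take the maximum).
For `ω' ∈ M S`: `ω (y k) ≤ ω' (y k)` for infinitely many `k`, so `ω y ≤ ω' y` in the limit
(`ω y + (1/(k+1)) ω a ≤ ω' y + (1/(k+1)) ω' a` for arbitrarily large `k`). So `y ∈ Q S ω`, `g ω y ∈ P` and
`v = (γ * (g ω)⁻¹) (g ω y)`.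
(iv) (b): let `γ ∈ Γ` and let `U = interior P ∩ γ '' interior P` be nonempty; it is open (`isOpenMap_equiv`). For `y ∈ U`:
`y ∈ P ⊆ D`, so `ξ₀ y ≤ ξ₀ (γ⁻¹ y)` (`ω = ξ₀ ∘ γ⁻¹`), and `γ⁻¹ y ∈ P ⊆ D`, so `ξ₀ (γ⁻¹ y) ≤ ξ₀ (γ (γ⁻¹ y)) = ξ₀ y`.
So the linear functional `ξ₀ - ξ₀ ∘ γ⁻¹` vanishes on the nonempty open set `U`, hence everywhere (for `y ∈ U`, `v ∈ V`, `y + t v ∈ U` for
small `t > 0`). So `ξ₀ (γ⁻¹ v) = ξ₀ v` for all `v`, `γ⁻¹ = 1`, `γ = 1`.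
-/

namespace Pool.Agent.H39.Cone

variable {V : Type*} [NormedAddCommGroup V] [NormedSpace ℝ V] [FiniteDimensional ℝ V]
variable {L : Submodule ℤ V} [DiscreteTopology L] [IsZLattice ℝ L] {N : Set V} {Γ : Subgroup (V ≃ₗ[ℝ] V)}

/-- If `x ∈ coneOf (insert a S)`-pieces: the minimiser region of `ω` among the finite set `M` of possible minimisers. -/
theorem region_le (hN : IsNef N) {Ω : Set (V →ₗ[ℝ] ℝ)} (hΩ : Ω ⊆ Lam L N) {S : Finset V}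
    (hS : ∀ s ∈ S, s ∈ L ∧ s ∈ closure N) {ω : V →ₗ[ℝ] ℝ} (hω : ω ∈ Ω)
    (hx₀ : ∃ x ∈ coneOf S, x ∈ interior N ∧ ∀ ω' ∈ Ω, ω x ≤ ω' x) {x : V} (hx : x ∈ coneOf S)
    (hle : ∀ ω' ∈ Ω, (∃ x ∈ coneOf S, x ∈ interior N ∧ ∀ ω'' ∈ Ω, ω' x ≤ ω'' x) → ω x ≤ ω' x) :
    ∀ ω' ∈ Ω, ω x ≤ ω' x := by
  sorry

/-- Every point of `coneOf S` (with `S` containing a point of the interior) has a minimiser in the finite set. -/
theorem exists_region (hN : IsNef N) {Ω : Set (V →ₗ[ℝ] ℝ)} (hΩ : Ω ⊆ Lam L N) (hne : Ω.Nonempty) {S : Finset V}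
    (hS : ∀ s ∈ S, s ∈ L ∧ s ∈ closure N) {a : V} (haS : a ∈ S) (ha : a ∈ interior N) {y : V} (hy : y ∈ coneOf S) :
    ∃ ω ∈ Ω, (∃ x ∈ coneOf S, x ∈ interior N ∧ ∀ ω' ∈ Ω, ω x ≤ ω' x) ∧ ∀ ω' ∈ Ω, ω y ≤ ω' y := by
  sorry

theorem fundDom_of_cov (hN : IsNef N) (hP : Pres Γ L N) (hC : Cov Γ L N) : FundDom Γ L N := by
  sorry

end Pool.Agent.H39.Cone
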