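import Mathlib
import Pool.Agent.H39.Cone.Act

set_option autoImplicit false

/-!
# Module [H39 CC Index]: finite index subgroups and overgroups

PROOF. `F` from `Cov Γ L N`. `Γ'.relIndex Γ ≠ 0` means that `Γ' ⊓ Γ` has finite index in `Γ` (`Subgroup.relIndex`, it is the index of
`Γ'.subgroupOf Γ`, a subgroup of `Γ`). So there is a finite set `T ⊆ Γ` with: every `γ ∈ Γ` is `γ = δ * c` with `δ ∈ Γ' ⊓ Γ`,
`c ∈ T` (representatives of the right cosets; e.g. apply finiteness of the quotient to `γ⁻¹` and left cosets: `γ⁻¹ = c' δ'`, so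
`γ = δ'⁻¹ c'⁻¹`; `Subgroup.index_ne_zero_iff_finite`/`Subgroup.finite_quotient_of_finiteIndex`, `Quotient.out`).
Take `F' = {S.image c | S ∈ F, c ∈ T}` (`Finset.image₂` or `Finset.biUnion`). Its elements are finite subsets of `L` (`hP`).
If `v ∈ N`: `v = γ p`, `p ∈ coneOf S`, `γ = δ c`, `v = δ (c p)`, `c p ∈ coneOf (S.image c)` (`mem_coneOf_map`).
Conversely if `q ∈ coneOf (S.image c)`, `q = c p`, `p ∈ coneOf S`, then `q = c p ∈ N` by `Cov`, and `δ q ∈ N` for `δ ∈ Γ'`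
because `Γ'` preserves `N` (`hP'`).
-/

namespace Pool.Agent.H39.Cone

variable {V : Type*} [NormedAddCommGroup V] [NormedSpace ℝ V] [FiniteDimensional ℝ V]
variable {L : Submodule ℤ V} {N : Set V}

theorem cov_of_relIndex {Γ Γ' : Subgroup (V ≃ₗ[ℝ] V)} (hP : Pres Γ L N) (hP' : Pres Γ' L N) (hC : Cov Γ L N)
    (h : Γ'.relIndex Γ ≠ 0) : Cov Γ' L N := by
  sorry

end Pool.Agent.H39.Cone
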