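import Mathlib
import Pool.Agent.H39.Cone.Act

set_option autoImplicit false

/-!
# Module [H39 CC ProdM]: products

PROOFS. The space is `∀ i, W i` with the sup norm (`Pi` instances), `ι` finite.

`discrete_prodLat`: it is enough that `0` is isolated in `prodLat L` (`discreteTopology_of_isOpen_singleton_zero` for
topological groups). For each `i` there is `ε i > 0` such that `v ∈ L i`, `‖v‖ < ε i` imply `v = 0`; `‖v‖ < min ε i`
implies `‖v i‖ < ε i` (`norm_le_pi_norm`). Alternative: the map `prodLat L → ∀ i, L i` is continuous and injective, and a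
finite product of discrete spaces is discrete (`Pi.discreteTopology` instance): `DiscreteTopology.of_continuous_injective`.

`isZLattice_prodLat`: `span ℝ (prodLat L) = ⊤`: for `v`, `v = ∑ i, Pi.single i (v i)`; `v i ∈ span ℝ (L i) = ⊤`; the
linear map `LinearMap.single ℝ W i` maps `L i` into `prodLat L`, so `Pi.single i (v i) ∈ span ℝ (prodLat L)`
(`Submodule.span_le`/`Submodule.map_span`).

`isNef_prodCone`: `prodCone N = Set.pi Set.univ N`; `interior_pi_set`, `closure_pi_set`.

`pres_prodGroup`: clear.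

`cov_prodGroup`: `F i` from `Cov (Γ i)`. For a choice `S ∈ Fintype.piFinset F` (a family `S i ∈ F i`) put
`S' = ⋃ i, (S i).image (Pi.single i)` (`Finset.univ.biUnion`). Then `v ∈ coneOf S' ↔ ∀ i, v i ∈ coneOf (S i)`: `→` by `coneOf_sub`
(each generator `Pi.single i s` has components in the cones; the right side is a cone), `←` because
`v = ∑ i, Pi.single i (v i)` and `Pi.single i (v i) ∈ coneOf ((S i).image (Pi.single i)) ⊆ coneOf S'` (`mem_coneOf_image`,
`coneOf_mono`; sum by induction, `coneOf_add`). `F' = (Fintype.piFinset F).image (fun S => S')`. Covering: for `v ∈ prodCone N`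
choose `γ i ∈ Γ i`, `S i ∈ F i`, `p i ∈ coneOf (S i)` with `γ i (p i) = v i`; the element
`LinearEquiv.piCongrRight γ` (over `ℝ`) is in `prodGroup Γ`.
-/

namespace Pool.Agent.H39.Cone

variable {ι : Type*} [Fintype ι] {W : ι → Type*} [∀ i, NormedAddCommGroup (W i)] [∀ i, NormedSpace ℝ (W i)]

theorem discrete_prodLat (L : ∀ i, Submodule ℤ (W i)) [∀ i, DiscreteTopology (L i)] :
    DiscreteTopology (prodLat L) := by
  sorry

theorem isZLattice_prodLat (L : ∀ i, Submodule ℤ (W i)) [∀ i, DiscreteTopology (L i)] [∀ i, IsZLattice ℝ (L i)]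
    [DiscreteTopology (prodLat L)] : IsZLattice ℝ (prodLat L) := by
  sorry

theorem isNef_prodCone {N : ∀ i, Set (W i)} (hN : ∀ i, IsNef (N i)) : IsNef (prodCone N) := by
  sorry

theorem pres_prodGroup {L : ∀ i, Submodule ℤ (W i)} {N : ∀ i, Set (W i)} {Γ : ∀ i, Subgroup (W i ≃ₗ[ℝ] W i)}
    (hP : ∀ i, Pres (Γ i) (L i) (N i)) : Pres (prodGroup Γ) (prodLat L) (prodCone N) := by
  sorry

theorem cov_prodGroup {L : ∀ i, Submodule ℤ (W i)} {N : ∀ i, Set (W i)} {Γ : ∀ i, Subgroup (W i ≃ₗ[ℝ] W i)}
    (hC : ∀ i, Cov (Γ i) (L i) (N i)) : Cov (prodGroup Γ) (prodLat L) (prodCone N) := by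
  sorry

end Pool.Agent.H39.Cone
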