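import Mathlib
import Pool.Agent.H39.Cone.Fund
import Pool.Agent.H39.Cone.Fixed
import Pool.Agent.H39.Cone.Index
import Pool.Agent.H39.Cone.ProdM

set_option autoImplicit false

/-!
# The assembly: products, finite index, descent, fundamental domain
-/

namespace Pool.Agent.H39.Cone

theorem cov_single {V : Type*} [NormedAddCommGroup V] [NormedSpace ℝ V] [FiniteDimensional ℝ V]
    (L : Submodule ℤ V) [DiscreteTopology L] [IsZLattice ℝ L] (N : Set V) (hN : IsNef N)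
    (Γ : Subgroup (V ≃ₗ[ℝ] V)) (hP : Pres Γ L N) (hC : Cov Γ L N)
    (G : Subgroup (V ≃ₗ[ℝ] V)) [Finite G] (hG : G ≤ Γ)
    (Γ' : Subgroup (fixedSub G ≃ₗ[ℝ] fixedSub G)) (hP' : Pres Γ' (fixedLat G L) (fixedCone G N))
    (hidx : Γ'.relIndex (normImage Γ G) ≠ 0) :
    FundDom Γ' (fixedLat G L) (fixedCone G N) := by
  haveI : DiscreteTopology (fixedLat G L) := discrete_fixedLat L G
  haveI : IsZLattice ℝ (fixedLat G L) := isZLattice_fixedLat G fun g hg v hv => hP.lat (hG hg) hv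
  have h1 : Cov Γ' (fixedLat G L) (fixedCone G N) :=
    cov_of_relIndex (pres_normImage hP G) hP' (cov_normImage hN hP hC G hG) hidx
  exact fundDom_of_cov (isNef_fixedCone hN hP G hG) hP' h1

theorem main {ι : Type*} [Fintype ι] {W : ι → Type*} [∀ i, NormedAddCommGroup (W i)]
    [∀ i, NormedSpace ℝ (W i)] [∀ i, FiniteDimensional ℝ (W i)]
    (L : ∀ i, Submodule ℤ (W i)) [∀ i, DiscreteTopology (L i)] [∀ i, IsZLattice ℝ (L i)]
    (N : ∀ i, Set (W i)) (hN : ∀ i, IsNef (N i))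
    (Γ₀ : ∀ i, Subgroup (W i ≃ₗ[ℝ] W i)) (hP₀ : ∀ i, Pres (Γ₀ i) (L i) (N i))
    (hC : ∀ i, Cov (Γ₀ i) (L i) (N i))
    (Γ : Subgroup ((∀ i, W i) ≃ₗ[ℝ] (∀ i, W i))) (hP : Pres Γ (prodLat L) (prodCone N))
    (hidx : Γ.relIndex (prodGroup Γ₀) ≠ 0)
    (G : Subgroup ((∀ i, W i) ≃ₗ[ℝ] (∀ i, W i))) [Finite G] (hG : G ≤ Γ)
    (Γ' : Subgroup (fixedSub G ≃ₗ[ℝ] fixedSub G))
    (hP' : Pres Γ' (fixedLat G (prodLat L)) (fixedCone G (prodCone N)))
    (hidx' : Γ'.relIndex (normImage Γ G) ≠ 0) :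
    FundDom Γ' (fixedLat G (prodLat L)) (fixedCone G (prodCone N)) := by
  haveI : DiscreteTopology (prodLat L) := discrete_prodLat L
  haveI : IsZLattice ℝ (prodLat L) := isZLattice_prodLat L
  have h1 : Cov Γ (prodLat L) (prodCone N) :=
    cov_of_relIndex (pres_prodGroup hP₀) hP (cov_prodGroup hC) hidx
  exact cov_single (prodLat L) (prodCone N) (isNef_prodCone hN) Γ hP h1 G hG Γ' hP' hidx'

end Pool.Agent.H39.Cone
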